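import Pool.Agent.Lib.H69.FSym
import Pool.Agent.Lib.H69.FinitarySylow

open Pool.Agent.Lib.H69 Pool.Agent.Lib.H69.FinitarySylow

namespace Pool.Agent.Results.MP_055c61_al.SylowOfNormal

universe u

/-- **Q1, affirmative answer.**  Let `p` be a prime, `Ω` a set, `G` a transitive group of finitary
permutations of `Ω`, `N` a normal subgroup of `G`, and `S` a Sylow `p`-subgroup of `G` (a maximal
`p`-subgroup; this is what `Sylow p G` means, for an arbitrary group `G`) which is transitive
on `Ω`.  Then `S ∩ N` is a Sylow `p`-subgroup of `N`. -/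
theorem result (p : ℕ) [Fact p.Prime] (Ω : Type u) (G : Subgroup (Equiv.Perm Ω))
    (hG : G ≤ FSym Ω) (_hGtrans : MulAction.IsPretransitive G Ω) (N : Subgroup G) (hN : N.Normal)
    (S : Sylow p G) (hStrans : MulAction.IsPretransitive (S : Subgroup G) Ω) :
    ∃ T : Sylow p N, (T : Subgroup N) = (S : Subgroup G).subgroupOf N :=
  sylow_normal_abs (Ω := Ω) (fun g => hG g.2) S N

end Pool.Agent.Results.MP_055c61_al.SylowOfNormal
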